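import Pool.Agent.K4H91.GIQ.Logic

/-!
# The converse, and consequences
-/

set_option autoImplicit false

namespace Pool.Agent.K4H91.GIQ

open Finset

section poly

variable {s : ℕ}

/-- the value of a sum of monomials -/
def vl (n : Fin s → ℕ) (L : List (List (Fin s))) : ℕ := (L.map fun l => (l.map n).prod).sum

theorem vl_append (n : Fin s → ℕ) (L L' : List (List (Fin s))) :
    vl n (L ++ L') = vl n L + vl n L' := by
  simp [vl]

theorem vl_cons (n : Fin s → ℕ) (i : Fin s) (L : List (List (Fin s))) :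
    vl n (L.map (List.cons i)) = n i * vl n L := by
  unfold vl
  rw [List.map_map]
  induction L with
  | nil => simp
  | cons a L ih => simp_all [mul_add]

theorem vl_replicate (n : Fin s → ℕ) (c : ℕ) : vl n (List.replicate c []) = c := by
  simp [vl]

theorem exists_lists (R : Po s) : ∃ L L' : List (List (Fin s)), ∀ n : Fin s → ℕ,
    ev n R = (vl n L : ℤ) - (vl n L' : ℤ) := by
  induction R using MvPolynomial.induction_on with
  | C a =>
    refine ⟨List.replicate a.toNat [], List.replicate (-a).toNat [], fun n => ?_⟩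
    rw [vl_replicate, vl_replicate]
    unfold ev
    rw [MvPolynomial.eval_C]
    omega
  | add p q hp hq =>
    obtain ⟨L, L', h⟩ := hp
    obtain ⟨K, K', h'⟩ := hq
    refine ⟨L ++ K, L' ++ K', fun n => ?_⟩
    rw [map_add, h n, h' n, vl_append, vl_append]
    push_cast
    ring
  | mul_X p i hp =>
    obtain ⟨L, L', h⟩ := hp
    refine ⟨L.map (List.cons i), L'.map (List.cons i), fun n => ?_⟩
    rw [map_mul, h n, vl_cons, vl_cons]
    have : ev n (MvPolynomial.X i) = (n i : ℤ) := by
      unfold ev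
      simp
    rw [this]
    push_cast
    ring

/-- conjunction of a list of formulas -/
def Fml.conj {α : Type} : List (Fml s α) → Fml s α
  | [] => .tru
  | φ :: L => .and φ (Fml.conj L)

theorem holds_conj {α : Type} (n : Fin s → ℕ) (L : List (Fml s α)) (q : α → U n) :
    (Fml.conj L).Holds n q ↔ ∀ φ ∈ L, φ.Holds n q := by
  induction L with
  | nil => simp [Fml.conj, Fml.Holds]
  | cons φ L ih => simp [Fml.conj, Fml.Holds, ih]

/-- the tuples of given colours -/
def domL {β : Type} (l : List (Fin s)) (e : Fin l.length → β) : Fml s β :=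
  Fml.conj ((List.finRange l.length).map fun c => .col (l.get c) (e c))

theorem holds_domL {β : Type} (l : List (Fin s)) (e : Fin l.length → β) (n : Fin s → ℕ)
    (q : β → U n) : (domL l e).Holds n q ↔ ∀ c, (q (e c)).1 = l.get c := by
  unfold domL
  rw [holds_conj]
  simp [Fml.Holds]

theorem card_domL (l : List (Fin s)) (n : Fin s → ℕ) :
    Nat.card {r : Fin l.length → U n // ∀ c, (r c).1 = l.get c} = (l.map n).prod := by
  have h1 : Nat.card {r : Fin l.length → U n // ∀ c, (r c).1 = l.get c} =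
      Nat.card (∀ c : Fin l.length, Fin (n (l.get c))) := by
    refine Nat.card_congr ⟨fun r c => Fin.cast (by rw [r.2 c]) (r.1 c).2,
      fun x => ⟨fun c => ⟨l.get c, x c⟩, fun c => rfl⟩, ?_, ?_⟩
    · rintro ⟨r, hr⟩
      apply Subtype.ext
      funext c
      dsimp only
      refine Sigma.ext (hr c).symm ?_
      dsimp only
      have : ∀ (i j : Fin s) (h : i = j) (x : Fin (n i)), HEq (Fin.cast (by rw [h]) x : Fin (n j)) x := by
        rintro i _ rfl x
        rfl
      exact this _ _ (hr c) _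
    · intro x
      rfl
  rw [h1, Nat.card_pi]
  simp only [Nat.card_eq_fintype_card, Fintype.card_fin]
  exact Fin.prod_univ_fun_getElem l n

/-- the number of vertices of the graphs which we use -/
theorem card_vx (L : List (List (Fin s))) (n : Fin s → ℕ)
    (D : ∀ j : Fin L.length, (Fin (L.get j).length → U n) → Prop)
    (hD : ∀ j r, D j r ↔ ∀ c, (r c).1 = (L.get j).get c) :
    Nat.card (Vx D) = vl n L := by
  have h1 : Nat.card (Vx D) = Nat.card (Σ j : Fin L.length,
      {r : Fin (L.get j).length → U n // ∀ c, (r c).1 = (L.get j).get c}) := by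
    refine Nat.card_congr ⟨fun x => ⟨x.1.1, ⟨x.1.2, (hD _ _).1 x.2⟩⟩,
      fun y => ⟨⟨y.1, y.2.1⟩, (hD _ _).2 y.2.2⟩, fun x => rfl, fun y => rfl⟩
  rw [h1, Nat.card_sigma]
  have h2 : ∀ j : Fin L.length, Nat.card {r : Fin (L.get j).length → U n //
      ∀ c, (r c).1 = (L.get j).get c} = ((L.get j).map n).prod := fun j => card_domL _ n
  simp only [h2]
  exact Fin.sum_univ_fun_getElem L (fun l => (l.map n).prod)

theorem gr_bot {X : Type} {t : ℕ} {d : Fin t → ℕ} (D : ∀ j, (Fin (d j) → X) → Prop)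
    (A : ∀ j k, (Fin (d j) → X) → (Fin (d k) → X) → Prop) (hA : ∀ j k r r', ¬ A j k r r') :
    Gr D A = ⊥ := by
  ext x y
  unfold Gr
  rw [SimpleGraph.fromRel_adj, SimpleGraph.bot_adj]
  constructor
  · rintro ⟨_, h | h⟩
    · exact hA _ _ _ _ h
    · exact hA _ _ _ _ h
  · exact False.elim

theorem bot_iso {V W : Type} [Finite V] [Finite W] :
    Nonempty ((⊥ : SimpleGraph V) ≃g (⊥ : SimpleGraph W)) ↔ Nat.card V = Nat.card W := by
  constructor
  · rintro ⟨e⟩
    exact Nat.card_congr e.toEquiv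
  · intro h
    obtain ⟨e⟩ := Finite.card_eq.1 h
    refine ⟨⟨e, ?_⟩⟩
    intro a b
    simp

/-- two graphs without edges with `vl n L` and `vl n L'` vertices -/
theorem cmp_iff (L L' : List (List (Fin s))) (n : Fin s → ℕ)
    (D : ∀ j : Fin L.length, (Fin (L.get j).length → U n) → Prop)
    (hD : ∀ j r, D j r ↔ ∀ c, (r c).1 = (L.get j).get c)
    (D' : ∀ j : Fin L'.length, (Fin (L'.get j).length → U n) → Prop)
    (hD' : ∀ j r, D' j r ↔ ∀ c, (r c).1 = (L'.get j).get c) (A A')
    (hA : ∀ j k r r', ¬ A j k r r') (hA' : ∀ j k r r', ¬ A' j k r r') :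
    Nonempty (Gr D A ≃g Gr D' A') ↔ vl n L = vl n L' := by
  rw [gr_bot D A hA, gr_bot D' A' hA', bot_iso, card_vx L n D hD, card_vx L' n D' hD']

/-- the formula for a polynomial equation -/
def eqF (L L' : List (List (Fin s))) : Fml s Empty :=
  .iso L.length (fun j => (L.get j).length) (fun j => domL (L.get j) Sum.inr)
    (fun _ _ => .not .tru) L'.length (fun j => (L'.get j).length)
    (fun j => domL (L'.get j) Sum.inr) (fun _ _ => .not .tru)

theorem holds_eqF (L L' : List (List (Fin s))) (n : Fin s → ℕ) (q : Empty → U n) :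
    (eqF L L').Holds n q ↔ vl n L = vl n L' := by
  unfold eqF
  show Nonempty _ ↔ _
  rw [cmp_iff L L' n]
  · intro j r
    exact holds_domL _ _ _ _
  · intro j r
    exact holds_domL _ _ _ _
  · intro j k r r' h
    exact h trivial
  · intro j k r r' h
    exact h trivial

/-- every constructible set is definable -/
theorem exists_sentence {X : Set (Fin s → ℕ)} (hX : AlgComb s X) :
    ∃ φ : Fml s Empty, ∀ (n : Fin s → ℕ) (q : Empty → U n), φ.Holds n q ↔ n ∈ X := by
  induction hX with
  | zero R =>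
    obtain ⟨L, L', h⟩ := exists_lists R
    refine ⟨eqF L L', fun n q => ?_⟩
    rw [holds_eqF]
    show _ ↔ ev n R = 0
    rw [h]
    omega
  | compl _ ih =>
    obtain ⟨φ, h⟩ := ih
    exact ⟨.not φ, fun n q => not_congr (h n q)⟩
  | inter _ _ ih ih' =>
    obtain ⟨φ, h⟩ := ih
    obtain ⟨φ', h'⟩ := ih'
    exact ⟨.and φ φ', fun n q => and_congr (h n q) (h' n q)⟩

end poly

section manyone

variable {s : ℕ}

/-- formulas without `iso` and `hom`: first-order formulas -/
def Fml.FO : {α : Type} → Fml s α → Prop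
  | _, .tru => True
  | _, .col _ _ => True
  | _, .eq _ _ => True
  | _, .not φ => φ.FO
  | _, .and φ χ => φ.FO ∧ χ.FO
  | _, .ex φ => φ.FO
  | _, .iso .. => False
  | _, .hom .. => False

/-- quantifier-free formulas -/
def Fml.QF : {α : Type} → Fml s α → Prop
  | _, .tru => True
  | _, .col _ _ => True
  | _, .eq _ _ => True
  | _, .not φ => φ.QF
  | _, .and φ χ => φ.QF ∧ χ.QF
  | _, .ex _ => False
  | _, .iso .. => False
  | _, .hom .. => False

/-- interpretations of a graph in sets with `s` colours -/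
structure Interp (s : ℕ) : Type 1 where
  /-- number of copies -/
  t : ℕ
  /-- length of the tuples in each copy -/
  d : Fin t → ℕ
  /-- the tuples which are vertices -/
  dom : ∀ j, Fml s (Fin (d j))
  /-- adjacency -/
  adj : ∀ j k, Fml s (Fin (d j) ⊕ Fin (d k))

/-- the interpreted graph -/
def Interp.graph (I : Interp s) (n : Fin s → ℕ) :
    SimpleGraph (Vx fun (j : Fin I.t) (r : Fin (I.d j) → U n) => (I.dom j).Holds n r) :=
  Gr (fun j r => (I.dom j).Holds n r) (fun j k r r' => (I.adj j k).Holds n (jn r r'))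

/-- first-order interpretations -/
def Interp.FO (I : Interp s) : Prop := (∀ j, (I.dom j).FO) ∧ ∀ j k, (I.adj j k).FO

/-- quantifier-free interpretations -/
def Interp.QF (I : Interp s) : Prop := (∀ j, (I.dom j).QF) ∧ ∀ j k, (I.adj j k).QF

theorem tame0_qf {α : Type} (φ : Fml s α) : φ.QF → Tame0 0 (fun n q => φ.Holds n q) := by
  induction φ with
  | tru => exact fun _ => ⟨fun _ => True, fun n _ q => Iff.rfl⟩
  | col i a => exact fun _ => ⟨fun τ => τ.1 a = i, fun n _ q => Iff.rfl⟩
  | eq a b => exact fun _ => ⟨fun τ => τ.2 a b, fun n _ q => Iff.rfl⟩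
  | not φ ih =>
    intro h
    obtain ⟨C, hC⟩ := ih h
    exact ⟨fun τ => ¬ C τ, fun n hn q => not_congr (hC n hn q)⟩
  | and φ χ ih ih' =>
    intro h
    obtain ⟨C, hC⟩ := ih h.1
    obtain ⟨C', hC'⟩ := ih' h.2
    exact ⟨fun τ => C τ ∧ C' τ, fun n hn q => and_congr (hC n hn q) (hC' n hn q)⟩
  | ex φ _ => exact fun h => h.elim
  | iso => exact fun h => h.elim
  | hom => exact fun h => h.elim

theorem tame0_fo {α : Type} (φ : Fml s α) : Finite α → φ.FO →
    ∃ N, Tame0 N (fun n q => φ.Holds n q) := by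
  induction φ with
  | tru => exact fun _ _ => ⟨0, fun _ => True, fun n _ q => Iff.rfl⟩
  | col i a => exact fun _ _ => ⟨0, fun τ => τ.1 a = i, fun n _ q => Iff.rfl⟩
  | eq a b => exact fun _ _ => ⟨0, fun τ => τ.2 a b, fun n _ q => Iff.rfl⟩
  | not φ ih =>
    intro hα h
    obtain ⟨N, C, hC⟩ := ih hα h
    exact ⟨N, fun τ => ¬ C τ, fun n hn q => not_congr (hC n hn q)⟩
  | and φ χ ih ih' =>
    intro hα h
    obtain ⟨N, C, hC⟩ := ih hα h.1
    obtain ⟨N', C', hC'⟩ := ih' hα h.2
    exact ⟨N + N', fun τ => C τ ∧ C' τ, fun n hn q =>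
      and_congr (hC n (hn.mono (by omega)) q) (hC' n (hn.mono (by omega)) q)⟩
  | @ex α φ ih =>
    intro hα h
    have := Fintype.ofFinite α
    obtain ⟨N, C, hC⟩ := ih inferInstance h
    refine ⟨N + (Fintype.card α + 1), fun τ => (∃ i, C (xt τ i (fun _ => False))) ∨
      ∃ b, C (xt τ (τ.1 b) (τ.2 b)), fun n hn q => ?_⟩
    beta_reduce
    rw [← ex_iff (hn.mono (by omega)) q C]
    exact exists_congr fun u => hC n (hn.mono (by omega)) _
  | iso => exact fun _ h => h.elim
  | hom => exact fun _ h => h.elim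

theorem many_one_aux (I J : Interp s) (N : ℕ)
    (h1 : ∀ j, Tame0 N (fun n q => (I.dom j).Holds n q))
    (h2 : ∀ j k, Tame0 N (fun n q => (I.adj j k).Holds n q))
    (h3 : ∀ j, Tame0 N (fun n q => (J.dom j).Holds n q))
    (h4 : ∀ j k, Tame0 N (fun n q => (J.adj j k).Holds n q)) :
    ∃ R : Po s, ∀ n : Fin s → ℕ, Big N n →
      (Nonempty (I.graph n ≃g J.graph n) ↔ ev n R = 0) := by
  choose C1 h1 using h1
  choose C2 h2 using h2
  choose C3 h3 using h3
  choose C4 h4 using h4
  obtain ⟨R, hR⟩ := eq_poly (s := s) (α := Empty) (fun j τ => C1 j (cm Sum.inr τ))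
    (fun j k τ => C2 j k (cm Sum.inr τ)) (fun j τ => C3 j (cm Sum.inr τ))
    (fun j k τ => C4 j k (cm Sum.inr τ)) (ι := Σ m : ℕ, SimpleGraph (Fin m))
    (fun F => F.1) (fun F => indPt F.2)
  refine ⟨R (fun e => e.elim, fun e => e.elim), fun n hn => ?_⟩
  have h := hR n (fun e => e.elim)
  have hq : ty (n := n) (fun e : Empty => e.elim) =
      ((fun e => e.elim, fun e => e.elim) : Ty s Empty) := by
    refine Prod.ext ?_ ?_
    · funext e
      exact e.elim
    · funext e
      exact e.elim
  rw [hq] at h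
  rw [← h, iso_iff]
  have e1 : (fun (j : Fin I.t) (r : Fin (I.d j) → U n) => (I.dom j).Holds n r) =
      (fun j r => C1 j (cm Sum.inr (ty (jn (fun e : Empty => e.elim) r)))) := by
    funext j r
    rw [eq_iff_iff]
    exact h1 j n hn r
  have e2 : (fun (j k : Fin I.t) (r : Fin (I.d j) → U n) r' => (I.adj j k).Holds n (jn r r')) =
      (fun j k r r' => C2 j k (cm Sum.inr (ty (jn (fun e : Empty => e.elim) (jn r r'))))) := by
    funext j k r r'
    rw [eq_iff_iff]
    exact h2 j k n hn _
  have e3 : (fun (j : Fin J.t) (r : Fin (J.d j) → U n) => (J.dom j).Holds n r) =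
      (fun j r => C3 j (cm Sum.inr (ty (jn (fun e : Empty => e.elim) r)))) := by
    funext j r
    rw [eq_iff_iff]
    exact h3 j n hn r
  have e4 : (fun (j k : Fin J.t) (r : Fin (J.d j) → U n) r' => (J.adj j k).Holds n (jn r r')) =
      (fun j k r r' => C4 j k (cm Sum.inr (ty (jn (fun e : Empty => e.elim) (jn r r'))))) := by
    funext j k r r'
    rw [eq_iff_iff]
    exact h4 j k n hn _
  have g1 : ∀ (m : ℕ) (F : SimpleGraph (Fin m)), cnt (indPt F) (I.graph n) =
      cnt (indPt F) (Gr (fun j r => C1 j (cm Sum.inr (ty (jn (fun e : Empty => e.elim) r))))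
      (fun j k r r' => C2 j k (cm Sum.inr (ty (n := n) (jn (fun e : Empty => e.elim) (jn r r')))))) := by
    intro m F
    unfold Interp.graph
    rw [e1, e2]
  have g2 : ∀ (m : ℕ) (F : SimpleGraph (Fin m)), cnt (indPt F) (J.graph n) =
      cnt (indPt F) (Gr (fun j r => C3 j (cm Sum.inr (ty (jn (fun e : Empty => e.elim) r))))
      (fun j k r r' => C4 j k (cm Sum.inr (ty (n := n) (jn (fun e : Empty => e.elim) (jn r r')))))) := by
    intro m F
    unfold Interp.graph
    rw [e3, e4]
  constructor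
  · intro h F
    rw [← g1, ← g2]
    exact h F.1 F.2
  · intro h m F
    rw [g1, g2]
    exact h ⟨m, F⟩

/-- first-order interpretations -/
theorem many_one_fo (I J : Interp s) (hI : I.FO) (hJ : J.FO) :
    ∃ (N : ℕ) (R : Po s), ∀ n : Fin s → ℕ, (∀ i, N ≤ n i) →
      (Nonempty (I.graph n ≃g J.graph n) ↔ MvPolynomial.eval (fun i => (n i : ℤ)) R = 0) := by
  choose N1 h1 using fun j => tame0_fo (I.dom j) inferInstance (hI.1 j)
  choose N2 h2 using fun j k => tame0_fo (I.adj j k) inferInstance (hI.2 j k)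
  choose N3 h3 using fun j => tame0_fo (J.dom j) inferInstance (hJ.1 j)
  choose N4 h4 using fun j k => tame0_fo (J.adj j k) inferInstance (hJ.2 j k)
  obtain ⟨M1, hM1⟩ := exists_bound N1
  obtain ⟨M2, hM2⟩ := exists_bound (fun x : Fin I.t × Fin I.t => N2 x.1 x.2)
  obtain ⟨M3, hM3⟩ := exists_bound N3
  obtain ⟨M4, hM4⟩ := exists_bound (fun x : Fin J.t × Fin J.t => N4 x.1 x.2)
  have mono : ∀ {α : Type} {M N : ℕ} {R : ∀ n : Fin s → ℕ, (α → U n) → Prop}, Tame0 M R → M ≤ N →
      Tame0 N R := by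
    rintro α M N R ⟨C, hC⟩ h
    exact ⟨C, fun n hn q => hC n (hn.mono h) q⟩
  obtain ⟨R, hR⟩ := many_one_aux I J (M1 + M2 + M3 + M4)
    (fun j => mono (h1 j) (by have := hM1 j; omega))
    (fun j k => mono (h2 j k) (by have := hM2 (j, k); dsimp only at this; omega))
    (fun j => mono (h3 j) (by have := hM3 j; omega))
    (fun j k => mono (h4 j k) (by have := hM4 (j, k); dsimp only at this; omega))
  exact ⟨_, R, hR⟩

/-- quantifier-free interpretations -/
theorem many_one_qf (I J : Interp s) (hI : I.QF) (hJ : J.QF) :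
    ∃ R : Po s, ∀ n : Fin s → ℕ,
      (Nonempty (I.graph n ≃g J.graph n) ↔ MvPolynomial.eval (fun i => (n i : ℤ)) R = 0) := by
  obtain ⟨R, hR⟩ := many_one_aux I J 0
    (fun j => tame0_qf _ (hI.1 j)) (fun j k => tame0_qf _ (hI.2 j k))
    (fun j => tame0_qf _ (hJ.1 j)) (fun j k => tame0_qf _ (hJ.2 j k))
  exact ⟨R, fun n => hR n fun i => Nat.zero_le _⟩

theorem qf_conj {α : Type} (L : List (Fml s α)) (h : ∀ φ ∈ L, φ.QF) : (Fml.conj L).QF := by
  induction L with
  | nil => exact trivial
  | cons φ L ih =>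
    exact ⟨h φ (by simp), ih fun χ hχ => h χ (by simp [hχ])⟩

/-- the interpretation of the graph without edges on `vl n L` vertices -/
def cardI (L : List (List (Fin s))) : Interp s where
  t := L.length
  d := fun j => (L.get j).length
  dom := fun j => domL (L.get j) id
  adj := fun _ _ => .not .tru

theorem qf_cardI (L : List (List (Fin s))) : (cardI L).QF := by
  refine ⟨fun j => ?_, fun j k => trivial⟩
  apply qf_conj
  intro φ hφ
  obtain ⟨c, -, rfl⟩ := List.mem_map.1 hφ
  exact trivial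

/-- every algebraic set is reducible to isomorphism -/
theorem many_one_conv (R : Po s) : ∃ I J : Interp s, I.QF ∧ J.QF ∧ ∀ n : Fin s → ℕ,
    (Nonempty (I.graph n ≃g J.graph n) ↔ MvPolynomial.eval (fun i => (n i : ℤ)) R = 0) := by
  obtain ⟨L, L', h⟩ := exists_lists R
  refine ⟨cardI L, cardI L', qf_cardI L, qf_cardI L', fun n => ?_⟩
  unfold Interp.graph
  rw [show MvPolynomial.eval (fun i => (n i : ℤ)) R = ev n R from rfl, h]
  refine (cmp_iff L L' n _ ?_ _ ?_ _ _ ?_ ?_).trans ?_
  · intro j r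
    exact holds_domL _ _ _ _
  · intro j r
    exact holds_domL _ _ _ _
  · intro j k r r' h
    exact h trivial
  · intro j k r r' h
    exact h trivial
  · omega

end manyone

end Pool.Agent.K4H91.GIQ
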