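import Pool.Agent.K4H91.GIQ.Converse

/-!
# Evenness and majority are not definable
-/

set_option autoImplicit false

namespace Pool.Agent.K4H91.GIQ

open Finset

theorem inf_nat : (Set.range (fun k : ℕ => (k : ℤ))).Infinite :=
  Set.infinite_range_of_injective Nat.cast_injective

theorem ev_eq_zero {s : ℕ} (R : Po s) (h : ∀ n : Fin s → ℕ, ev n R = 0) : R = 0 := by
  refine MvPolynomial.funext_set (fun _ => Set.range (fun k : ℕ => (k : ℤ))) (fun _ => inf_nat) ?_
  intro x hx
  have h1 : ∀ i, ∃ k : ℕ, (k : ℤ) = x i := fun i => hx i (Set.mem_univ i)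
  choose n hn using h1
  have h2 : x = fun i => (n i : ℤ) := by
    funext i
    exact (hn i).symm
  rw [h2, map_zero]
  exact h n

theorem generic {s : ℕ} {X : Set (Fin s → ℕ)} (hX : AlgComb s X) :
    ∃ R : Po s, R ≠ 0 ∧ ((∀ n, ev n R ≠ 0 → n ∈ X) ∨ ∀ n, ev n R ≠ 0 → n ∉ X) := by
  induction hX with
  | zero R =>
    by_cases h : R = 0
    · refine ⟨1, one_ne_zero, Or.inl fun n _ => ?_⟩
      rw [h]
      simp
    · exact ⟨R, h, Or.inr fun n hn h => hn h⟩
  | compl _ ih =>
    obtain ⟨R, h0, h | h⟩ := ih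
    · exact ⟨R, h0, Or.inr fun n hn h' => h' (h n hn)⟩
    · exact ⟨R, h0, Or.inl fun n hn => h n hn⟩
  | inter _ _ ih ih' =>
    obtain ⟨R, h0, h⟩ := ih
    obtain ⟨R', h0', h'⟩ := ih'
    refine ⟨R * R', mul_ne_zero h0 h0', ?_⟩
    have h1 : ∀ n : Fin s → ℕ, ev n (R * R') ≠ 0 → ev n R ≠ 0 ∧ ev n R' ≠ 0 := by
      intro n hn
      rw [map_mul] at hn
      exact ⟨left_ne_zero_of_mul hn, right_ne_zero_of_mul hn⟩
    rcases h with h | h
    · rcases h' with h' | h'
      · exact Or.inl fun n hn => ⟨h n (h1 n hn).1, h' n (h1 n hn).2⟩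
      · exact Or.inr fun n hn hm => h' n (h1 n hn).2 hm.2
    · exact Or.inr fun n hn hm => h n (h1 n hn).1 hm.1

/-- a nonzero polynomial in one variable has no large zeros -/
theorem one_var (R : Po 1) (h : R ≠ 0) : ∃ N, ∀ n : Fin 1 → ℕ, N ≤ n 0 → ev n R ≠ 0 := by
  let P : Polynomial ℤ := MvPolynomial.aeval (fun _ => Polynomial.X) R
  have h1 : ∀ n : Fin 1 → ℕ, P.eval (n 0 : ℤ) = ev n R := by
    intro n
    show Polynomial.eval _ (MvPolynomial.aeval (fun _ => Polynomial.X) R) = _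
    rw [← Polynomial.coe_evalRingHom, MvPolynomial.aeval_def, MvPolynomial.eval₂_eq',
      map_sum]
    unfold ev
    rw [MvPolynomial.eval_eq']
    simp
  have hP : P ≠ 0 := by
    intro hP
    apply h
    apply ev_eq_zero
    intro n
    rw [← h1, hP]
    simp
  have h2 : {k : ℕ | P.eval (k : ℤ) = 0}.Finite := by
    have h3 : {x : ℤ | P.eval x = 0}.Finite := by
      have := P.roots.toFinset.finite_toSet
      refine this.subset fun x hx => ?_
      simp only [mem_coe, Multiset.mem_toFinset]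
      rw [Polynomial.mem_roots hP]
      exact hx
    exact h3.preimage (Nat.cast_injective.injOn)
  obtain ⟨N, hN⟩ := h2.bddAbove
  refine ⟨N + 1, fun n hn h0 => ?_⟩
  rw [← h1] at h0
  have := hN h0
  omega

/-- zero-one law for pure sets -/
theorem zero_one {X : Set (Fin 1 → ℕ)} (hX : AlgComb 1 X) :
    ∃ N, (∀ n, N ≤ n 0 → n ∈ X) ∨ ∀ n, N ≤ n 0 → n ∉ X := by
  obtain ⟨R, h0, h⟩ := generic hX
  obtain ⟨N, hN⟩ := one_var R h0
  rcases h with h | h
  · exact ⟨N, Or.inl fun n hn => h n (hN n hn)⟩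
  · exact ⟨N, Or.inr fun n hn => h n (hN n hn)⟩

/-- substitution -/
theorem ev_subst {s t : ℕ} (θ : Fin s → Po t) (R : Po s) (m : Fin t → ℕ) (n : Fin s → ℕ)
    (h : ∀ i, ev m (θ i) = n i) : ev m (MvPolynomial.bind₁ θ R) = ev n R := by
  induction R using MvPolynomial.induction_on with
  | C a => simp [ev]
  | add p q hp hq => rw [map_add, map_add, map_add, hp, hq]
  | mul_X p i hp =>
    rw [map_mul, map_mul, map_mul, hp, MvPolynomial.bind₁_X_right, h]
    simp [ev]

/-- there are large nonzeros with `n 1 < n 0` -/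
theorem above (R : Po 2) (h : R ≠ 0) (N : ℕ) :
    ∃ n : Fin 2 → ℕ, (∀ i, N ≤ n i) ∧ n 1 < n 0 ∧ ev n R ≠ 0 := by
  by_contra hcon
  push Not at hcon
  let θ : Fin 2 → Po 2 := ![MvPolynomial.X 0 + MvPolynomial.X 1 + MvPolynomial.C ((N : ℤ) + 1),
    MvPolynomial.X 0 + MvPolynomial.C (N : ℤ)]
  let η : Fin 2 → Po 2 := ![MvPolynomial.X 1 - MvPolynomial.C (N : ℤ),
    MvPolynomial.X 0 - MvPolynomial.X 1 - MvPolynomial.C 1]
  have h1 : MvPolynomial.bind₁ θ R = 0 := by
    apply ev_eq_zero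
    intro m
    rw [ev_subst θ R m ![m 0 + m 1 + (N + 1), m 0 + N]]
    · apply hcon
      · intro i
        fin_cases i
        · show N ≤ m 0 + m 1 + (N + 1)
          omega
        · show N ≤ m 0 + N
          omega
      · show m 0 + N < m 0 + m 1 + (N + 1)
        omega
    · intro i
      fin_cases i
      · simp [θ, ev]
      · simp [θ, ev]
  have h2 : MvPolynomial.bind₁ η (MvPolynomial.bind₁ θ R) = R := by
    rw [MvPolynomial.bind₁_bind₁]
    have h3 : (fun i => MvPolynomial.bind₁ η (θ i)) = MvPolynomial.X := by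
      funext i
      fin_cases i
      · simp only [θ, η, Fin.zero_eta, Matrix.cons_val_zero, map_add, MvPolynomial.bind₁_X_right,
          Matrix.cons_val_one, MvPolynomial.algHom_C, MvPolynomial.algebraMap_eq]
        ring
      · simp only [θ, η, Fin.mk_one, Matrix.cons_val_zero, map_add, MvPolynomial.bind₁_X_right,
          Matrix.cons_val_one, MvPolynomial.algHom_C, MvPolynomial.algebraMap_eq]
        ring
    rw [h3]
    simp
  apply h
  rw [← h2, h1, map_zero]

/-- there are large nonzeros with `n 0 ≤ n 1` -/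
theorem below (R : Po 2) (h : R ≠ 0) (N : ℕ) :
    ∃ n : Fin 2 → ℕ, (∀ i, N ≤ n i) ∧ n 0 ≤ n 1 ∧ ev n R ≠ 0 := by
  by_contra hcon
  push Not at hcon
  let θ : Fin 2 → Po 2 := ![MvPolynomial.X 0 + MvPolynomial.C (N : ℤ),
    MvPolynomial.X 0 + MvPolynomial.X 1 + MvPolynomial.C (N : ℤ)]
  let η : Fin 2 → Po 2 := ![MvPolynomial.X 0 - MvPolynomial.C (N : ℤ),
    MvPolynomial.X 1 - MvPolynomial.X 0]
  have h1 : MvPolynomial.bind₁ θ R = 0 := by
    apply ev_eq_zero
    intro m
    rw [ev_subst θ R m ![m 0 + N, m 0 + m 1 + N]]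
    · apply hcon
      · intro i
        fin_cases i
        · show N ≤ m 0 + N
          omega
        · show N ≤ m 0 + m 1 + N
          omega
      · show m 0 + N ≤ m 0 + m 1 + N
        omega
    · intro i
      fin_cases i
      · simp [θ, ev]
      · simp [θ, ev]
  have h2 : MvPolynomial.bind₁ η (MvPolynomial.bind₁ θ R) = R := by
    rw [MvPolynomial.bind₁_bind₁]
    have h3 : (fun i => MvPolynomial.bind₁ η (θ i)) = MvPolynomial.X := by
      funext i
      fin_cases i
      · simp only [θ, η, Fin.zero_eta, Matrix.cons_val_zero, map_add, MvPolynomial.bind₁_X_right,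
          MvPolynomial.algHom_C, MvPolynomial.algebraMap_eq]
        ring
      · simp only [θ, η, Fin.mk_one, Matrix.cons_val_zero, map_add, MvPolynomial.bind₁_X_right,
          Matrix.cons_val_one, MvPolynomial.algHom_C, MvPolynomial.algebraMap_eq]
        ring
    rw [h3]
    simp
  apply h
  rw [← h2, h1, map_zero]

/-- majority is not constructible, not even for large cardinalities -/
theorem majority {X : Set (Fin 2 → ℕ)} (hX : AlgComb 2 X) (N : ℕ) :
    ¬ ∀ n : Fin 2 → ℕ, (∀ i, N ≤ n i) → (n ∈ X ↔ n 0 ≤ n 1) := by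
  intro h
  obtain ⟨R, h0, h1⟩ := generic hX
  obtain ⟨n, a1, a2, a3⟩ := above R h0 N
  obtain ⟨m, b1, b2, b3⟩ := below R h0 N
  rcases h1 with h1 | h1
  · have := (h n a1).1 (h1 n a3)
    omega
  · exact h1 m b3 ((h m b1).2 b2)

end Pool.Agent.K4H91.GIQ
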