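import Mathlib

/-!
# Counting tuples of a given atomic type in a coloured set

`U n` is the set with `n i` elements of colour `i`. The number of the tuples which extend a given
tuple and have a property that depends only on the atomic type (colours, equalities) is a polynomial
in the numbers `n i`.
-/

set_option autoImplicit false

namespace Pool.Agent.K4H91.GIQ

open Finset

/-- the coloured set with `n i` elements of colour `i` -/
abbrev U {s : ℕ} (n : Fin s → ℕ) : Type := Σ i : Fin s, Fin (n i)

/-- atomic types of tuples: the colours of the entries, and which entries are equal -/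
abbrev Ty (s : ℕ) (α : Type) : Type := (α → Fin s) × (α → α → Prop)

/-- integer polynomials in the cardinalities -/
abbrev Po (s : ℕ) : Type := MvPolynomial (Fin s) ℤ

/-- the value of a polynomial at `n` -/
noncomputable def ev {s : ℕ} (n : Fin s → ℕ) : Po s →+* ℤ :=
  MvPolynomial.eval (fun i => (n i : ℤ))

/-- the atomic type of a tuple -/
def ty {s : ℕ} {n : Fin s → ℕ} {α : Type} (q : α → U n) : Ty s α :=
  (fun a => (q a).1, fun a b => q a = q b)

/-- reindexing of atomic types -/
def cm {s : ℕ} {α β : Type} (e : β → α) (τ : Ty s α) : Ty s β :=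
  (fun b => τ.1 (e b), fun b c => τ.2 (e b) (e c))

theorem ty_comp {s : ℕ} {n : Fin s → ℕ} {α β : Type} (e : β → α) (q : α → U n) :
    ty (fun b => q (e b)) = cm e (ty q) := rfl

/-- the tuple `q` with one more entry `u` -/
def cn {X : Type} {α : Type} (u : X) (q : α → X) : Option α → X := fun o => o.elim u q

/-- the atomic type with one more entry of colour `i` which is equal to the entries in `cl` -/
def xt {s : ℕ} {α : Type} (τ : Ty s α) (i : Fin s) (cl : α → Prop) : Ty s (Option α) :=
  (fun o => o.elim i τ.1, fun o o' => match o, o' with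
    | none, none => True
    | none, some b => cl b
    | some a, none => cl a
    | some a, some b => τ.2 a b)

theorem ty_cn {s : ℕ} {n : Fin s → ℕ} {α : Type} (u : U n) (q : α → U n) :
    ty (cn u q) = xt (ty q) u.1 (fun b => u = q b) := by
  unfold ty cn xt
  refine Prod.ext ?_ ?_
  · funext o
    cases o <;> rfl
  · funext o o'
    cases o <;> cases o' <;> simp [eq_comm]

open Classical in
/-- the number of different entries of colour `i` -/
noncomputable def cc {s : ℕ} {α : Type} [Fintype α] (τ : Ty s α) (i : Fin s) : ℕ :=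
  (((univ : Finset α).filter (fun b => τ.1 b = i)).image τ.2).card

open Classical in
theorem cc_ty {s : ℕ} {n : Fin s → ℕ} {α : Type} [Fintype α] (q : α → U n) (i : Fin s) :
    cc (ty q) i = ((univ.image q).filter (fun u => u.1 = i)).card := by
  have h1 : (univ.image q).filter (fun u => u.1 = i) =
      ((univ : Finset α).filter (fun b => (q b).1 = i)).image q := by
    rw [Finset.filter_image]
  rw [h1]
  unfold cc
  have h2 : ((univ : Finset α).filter (fun b => (ty q).1 b = i)).image (ty q).2 =
      (((univ : Finset α).filter (fun b => (q b).1 = i)).image q).image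
        (fun x b => x = q b) := by
    rw [Finset.image_image]
    rfl
  rw [h2, Finset.card_image_of_injOn]
  intro x hx y hy hxy
  simp only [coe_image, coe_filter, mem_univ, true_and, Set.mem_image, Set.mem_ofPred_eq] at hx hy
  obtain ⟨a, -, rfl⟩ := hx
  have := (eq_iff_iff.1 (congrFun hxy a)).1 rfl
  exact this.symm

open Classical in
/-- one more entry -/
theorem step {s : ℕ} {α : Type} [Fintype α] (G : Ty s (Option α) → Po s) :
    ∃ P : Ty s α → Po s, ∀ (n : Fin s → ℕ) (q : α → U n),
      ∑ u : U n, ev n (G (ty (cn u q))) = ev n (P (ty q)) := by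
  refine ⟨fun τ => (∑ i : Fin s, (MvPolynomial.X i - (cc τ i : Po s)) * G (xt τ i (fun _ => False))) +
    ∑ cl ∈ univ.image τ.2, (if h : ∃ b, cl b then G (xt τ (τ.1 h.choose) cl) else 0), ?_⟩
  intro n q
  have hsplit : ∑ u : U n, ev n (G (ty (cn u q))) =
      ∑ u ∈ (univ.image q)ᶜ, ev n (G (ty (cn u q))) +
        ∑ u ∈ univ.image q, ev n (G (ty (cn u q))) := by
    rw [add_comm, Finset.sum_add_sum_compl]
  rw [hsplit, map_add]
  congr 1
  · -- new elements
    have h1 : ∀ u ∈ (univ.image q)ᶜ, ev n (G (ty (cn u q))) =
        ev n (G (xt (ty q) u.1 (fun _ => False))) := by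
      intro u hu
      rw [ty_cn]
      congr 3
      funext b
      simp only [eq_iff_iff, iff_false]
      intro h
      rw [mem_compl, h] at hu
      exact hu (mem_image_of_mem q (mem_univ b))
    rw [Finset.sum_congr rfl h1, map_sum]
    rw [← Finset.sum_fiberwise_of_maps_to (s := (univ.image q)ᶜ) (t := univ)
      (g := fun u : U n => u.1) (fun _ _ => mem_univ _)]
    refine Finset.sum_congr rfl fun i _ => ?_
    have h2 : ∀ u ∈ ((univ.image q)ᶜ).filter (fun u : U n => u.1 = i),
        ev n (G (xt (ty q) u.1 (fun _ => False))) = ev n (G (xt (ty q) i (fun _ => False))) := by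
      intro u hu
      rw [(mem_filter.1 hu).2]
    rw [Finset.sum_congr rfl h2, Finset.sum_const, nsmul_eq_mul, map_mul]
    congr 1
    have h3 : (((univ.image q)ᶜ).filter (fun u : U n => u.1 = i)).card +
        ((univ.image q).filter (fun u => u.1 = i)).card = n i := by
      rw [← Finset.card_union_of_disjoint, ← Finset.filter_union]
      · rw [Finset.union_comm, Finset.union_compl]
        have : (univ : Finset (U n)).filter (fun u => u.1 = i) =
            (univ : Finset (Fin (n i))).map ⟨Sigma.mk i, sigma_mk_injective⟩ := by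
          ext u
          obtain ⟨j, x⟩ := u
          simp only [mem_filter, mem_univ, true_and, mem_map, Function.Embedding.coeFn_mk]
          constructor
          · rintro rfl
            exact ⟨x, rfl⟩
          · rintro ⟨y, hy⟩
            exact (congrArg Sigma.fst hy).symm
        rw [this, card_map, card_univ, Fintype.card_fin]
      · exact Finset.disjoint_filter_filter disjoint_compl_left
    have h4 := cc_ty q i
    have h5 : ev n (MvPolynomial.X i - ((cc (ty q) i : ℕ) : Po s)) =
        (n i : ℤ) - (cc (ty q) i : ℤ) := by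
      unfold ev
      simp
    rw [h5, h4]
    omega
  · -- old elements
    rw [map_sum]
    have h2 : (univ : Finset α).image (ty q).2 =
        ((univ : Finset α).image q).image (fun x b => x = q b) := by
      rw [Finset.image_image]
      rfl
    have hinj : Set.InjOn (fun (x : U n) (b : α) => x = q b) ((univ.image q : Finset (U n)) : Set (U n)) := by
      intro x hx y hy hxy
      obtain ⟨a, -, rfl⟩ := mem_image.1 (mem_coe.1 hx)
      exact ((eq_iff_iff.1 (congrFun hxy a)).1 rfl).symm
    rw [h2, Finset.sum_image (s := univ.image q) (g := fun (x : U n) (b : α) => x = q b) hinj]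
    refine Finset.sum_congr rfl fun u hu => ?_
    obtain ⟨a, -, rfl⟩ := mem_image.1 hu
    have h : ∃ b, (fun b => q a = q b) b := ⟨a, rfl⟩
    rw [dif_pos h, ty_cn]
    have h3 : q a = q h.choose := h.choose_spec
    have h4 : (ty q).1 h.choose = (q a).1 := by
      show (q h.choose).1 = (q a).1
      rw [← h3]
    rw [h4]

/-- the tuples `q` and `r` together -/
def jn {X : Type} {α κ : Type} (q : α → X) (r : κ → X) : α ⊕ κ → X := Sum.elim q r

open Classical in
/-- finitely many more entries -/
theorem many {s : ℕ} {α : Type} [Finite α] (κ : Type) [Fintype κ] :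
    ∀ G : Ty s (α ⊕ κ) → Po s, ∃ P : Ty s α → Po s, ∀ (n : Fin s → ℕ) (q : α → U n),
      ∑ r : κ → U n, ev n (G (ty (jn q r))) = ev n (P (ty q)) := by
  have := Fintype.ofFinite α
  refine Fintype.induction_empty_option (P := fun κ _ => ∀ G : Ty s (α ⊕ κ) → Po s,
    ∃ P : Ty s α → Po s, ∀ (n : Fin s → ℕ) (q : α → U n),
      ∑ r : κ → U n, ev n (G (ty (jn q r))) = ev n (P (ty q))) ?_ ?_ ?_ κ
  · intro κ κ' _ e ih G
    let _ := Fintype.ofEquiv κ' e.symm
    obtain ⟨P, hP⟩ := ih (fun τ => G (cm (Sum.map id e.symm) τ))
    refine ⟨P, fun n q => ?_⟩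
    rw [← hP n q]
    refine Fintype.sum_equiv (Equiv.arrowCongr e.symm (Equiv.refl _)) _ _ fun r => ?_
    congr 2
    rw [← ty_comp]
    congr 1
    funext x
    rcases x with a | b
    · rfl
    · simp [jn, Equiv.arrowCongr]
  · intro G
    refine ⟨fun τ => G (cm (Sum.elim id (fun x : PEmpty => x.elim)) τ), fun n q => ?_⟩
    rw [Fintype.sum_unique]
    congr 2
    rw [← ty_comp]
    congr 1
    funext x
    rcases x with a | b
    · rfl
    · exact b.elim
  · intro κ _ ih G
    let e : α ⊕ Option κ → Option (α ⊕ κ) := Sum.elim (fun a => some (Sum.inl a))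
      (fun o => o.elim none (fun k => some (Sum.inr k)))
    obtain ⟨P1, hP1⟩ := step (α := α ⊕ κ) (fun τ => G (cm e τ))
    obtain ⟨P, hP⟩ := ih P1
    refine ⟨P, fun n q => ?_⟩
    rw [← hP n q]
    have h1 : ∀ r : κ → U n, ev n (P1 (ty (jn q r))) =
        ∑ u : U n, ev n (G (ty (jn q (cn u r)))) := by
      intro r
      rw [← hP1]
      refine Finset.sum_congr rfl fun u _ => ?_
      congr 2
      rw [← ty_comp]
      congr 1
      funext x
      rcases x with a | (_ | k) <;> rfl
    have h2 : ∑ r : κ → U n, ev n (P1 (ty (jn q r))) =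
        ∑ r : κ → U n, ∑ u : U n, ev n (G (ty (jn q (cn u r)))) :=
      Finset.sum_congr rfl fun r _ => h1 r
    rw [h2, ← Fintype.sum_prod_type' (f := fun (r : κ → U n) (u : U n) =>
      ev n (G (ty (jn q (cn u r)))))]
    refine Eq.trans (Finset.sum_congr ?_ fun _ _ => rfl)
      (Fintype.sum_equiv (((Equiv.piOptionEquivProd (β := fun _ : Option κ => U n)).trans
        (Equiv.prodComm _ _) : (Option κ → U n) ≃ (κ → U n) × U n))
        (fun r => ev n (G (ty (jn q r))))
        (fun x => ev n (G (ty (jn q (cn x.2 x.1))))) fun r => ?_)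
    · ext x
      simp
    congr 3
    funext x
    rcases x with a | (_ | k) <;> rfl

end Pool.Agent.K4H91.GIQ
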