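import Pool.Agent.K4H91.GIQ.Count

/-!
# Graphs on tuples of a coloured set: numbers of patterns are polynomials
-/

set_option autoImplicit false

namespace Pool.Agent.K4H91.GIQ

open Finset

/-- the vertices of an interpreted graph: tuples, in `t` copies; the tuples of the copy `j` have
length `d j` and satisfy `D j` -/
abbrev Vx {X : Type} {t : ℕ} {d : Fin t → ℕ} (D : ∀ j, (Fin (d j) → X) → Prop) : Type :=
  {x : Σ j : Fin t, (Fin (d j) → X) // D x.1 x.2}

/-- the interpreted graph: two different vertices are adjacent if `A` holds for them in one of the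
two orders -/
def Gr {X : Type} {t : ℕ} {d : Fin t → ℕ} (D : ∀ j, (Fin (d j) → X) → Prop)
    (A : ∀ j k, (Fin (d j) → X) → (Fin (d k) → X) → Prop) : SimpleGraph (Vx D) :=
  SimpleGraph.fromRel fun x y => A x.1.1 y.1.1 x.1.2 y.1.2

/-- patterns: properties of the adjacencies and equalities among `m` vertices -/
abbrev Pt (m : ℕ) : Type := (Fin m → Fin m → Prop) → (Fin m → Fin m → Prop) → Prop

/-- the number of the `m`-tuples of vertices with the pattern `Φ` -/
noncomputable def cnt {m : ℕ} (Φ : Pt m) {V : Type} (G : SimpleGraph V) : ℕ :=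
  Nat.card {x : Fin m → V // Φ (fun a b => G.Adj (x a) (x b)) (fun a b => x a = x b)}

theorem cnt_iso {m : ℕ} (Φ : Pt m) {V W : Type} {G : SimpleGraph V} {H : SimpleGraph W}
    (e : G ≃g H) : cnt Φ G = cnt Φ H := by
  unfold cnt
  refine Nat.card_congr (Equiv.subtypeEquiv (Equiv.arrowCongr (Equiv.refl _) e.toEquiv) ?_)
  intro x
  have h1 : (fun a b => G.Adj (x a) (x b)) =
      (fun a b => H.Adj ((Equiv.arrowCongr (Equiv.refl _) e.toEquiv) x a)
        ((Equiv.arrowCongr (Equiv.refl _) e.toEquiv) x b)) := by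
    funext a b
    simp only [Equiv.arrowCongr, Equiv.coe_fn_mk, Function.comp, eq_iff_iff]
    exact (e.map_rel_iff (a := x a) (b := x b)).symm
  have h2 : (fun a b => x a = x b) =
      (fun a b => (Equiv.arrowCongr (Equiv.refl _) e.toEquiv) x a =
        (Equiv.arrowCongr (Equiv.refl _) e.toEquiv) x b) := by
    funext a b
    simp [Equiv.arrowCongr]
  rw [← h1, ← h2]

/-- the pattern of the homomorphisms from `F` -/
def homPt {m : ℕ} (F : SimpleGraph (Fin m)) : Pt m := fun A _ => ∀ a b, F.Adj a b → A a b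

/-- the pattern of the induced embeddings of `F` -/
def indPt {m : ℕ} (F : SimpleGraph (Fin m)) : Pt m := fun A E =>
  (∀ a b, E a b → a = b) ∧ ∀ a b, A a b ↔ F.Adj a b

theorem cnt_hom {m : ℕ} (F : SimpleGraph (Fin m)) {V : Type} (G : SimpleGraph V) :
    cnt (homPt F) G = Nat.card (F →g G) := by
  unfold cnt homPt
  refine Nat.card_congr ⟨fun x => ⟨x.1, fun {a b} h => x.2 a b h⟩,
    fun φ => ⟨φ, fun a b h => φ.map_rel h⟩, fun x => rfl, fun φ => rfl⟩

/-- graphs are isomorphic if all numbers of induced embeddings are the same -/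
theorem iso_iff {V W : Type} [Finite V] [Finite W] (G : SimpleGraph V) (H : SimpleGraph W) :
    Nonempty (G ≃g H) ↔ ∀ (m : ℕ) (F : SimpleGraph (Fin m)),
      cnt (indPt F) G = cnt (indPt F) H := by
  constructor
  · rintro ⟨e⟩ m F
    exact cnt_iso _ e
  · intro h
    -- the numbers of vertices
    have hc : ∀ {V : Type} (G : SimpleGraph V), cnt (indPt (⊥ : SimpleGraph (Fin 1))) G =
        Nat.card V := by
      intro V G
      unfold cnt indPt
      refine Nat.card_congr ⟨fun x => x.1 0, fun v => ⟨fun _ => v, ?_, ?_⟩, ?_, ?_⟩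
      · intro a b _
        exact Subsingleton.elim _ _
      · intro a b
        simp
      · rintro ⟨x, hx⟩
        apply Subtype.ext
        funext a
        rw [Subsingleton.elim a 0]
      · intro v
        rfl
    have hVW : Nat.card V = Nat.card W := by
      rw [← hc G, ← hc H]
      exact h 1 ⊥
    -- G embeds into H
    obtain ⟨e⟩ : Nonempty (V ≃ Fin (Nat.card V)) := ⟨Finite.equivFin V⟩
    let F : SimpleGraph (Fin (Nat.card V)) := G.comap e.symm
    have h1 : 0 < cnt (indPt F) G := by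
      unfold cnt
      have : Nonempty {x : Fin (Nat.card V) → V // indPt F (fun a b => G.Adj (x a) (x b))
          (fun a b => x a = x b)} := by
        refine ⟨⟨e.symm, ?_, ?_⟩⟩
        · intro a b hab
          exact e.symm.injective hab
        · intro a b
          rfl
      exact Nat.card_pos
    rw [h] at h1
    unfold cnt at h1
    obtain ⟨⟨x, hx1, hx2⟩⟩ := (Nat.card_pos_iff.1 h1).1
    have hinj : Function.Injective x := fun a b hab => hx1 a b hab
    have hbij : Function.Bijective x := by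
      have := Fintype.ofFinite W
      rw [Fintype.bijective_iff_injective_and_card]
      refine ⟨hinj, ?_⟩
      rw [Fintype.card_fin, hVW, Nat.card_eq_fintype_card]
    refine ⟨⟨e.trans (Equiv.ofBijective x hbij), ?_⟩⟩
    intro a b
    refine (hx2 (e a) (e b)).trans ?_
    show G.Adj (e.symm (e a)) (e.symm (e b)) ↔ G.Adj a b
    rw [Equiv.symm_apply_apply, Equiv.symm_apply_apply]

theorem sig_eq {X : Type} {t : ℕ} {d : Fin t → ℕ} (j k : Fin t) (a : Fin (d j) → X)
    (b : Fin (d k) → X) : ((⟨j, a⟩ : Σ j : Fin t, (Fin (d j) → X)) = ⟨k, b⟩) ↔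
      ∃ h : j = k, ∀ c, a c = b (Fin.cast (congrArg d h) c) := by
  constructor
  · intro h
    cases h
    exact ⟨rfl, fun c => rfl⟩
  · rintro ⟨rfl, h⟩
    have : a = b := funext h
    rw [this]

section count

variable {s : ℕ} {α : Type} {t : ℕ} {d : Fin t → ℕ}

/-- when two vertices are equal, from the atomic type of the tuples -/
def eqv (f : (m : ℕ) × (Fin m → Fin t)) (τ : Ty s (α ⊕ (Σ v : Fin f.1, Fin (d (f.2 v)))))
    (v w : Fin f.1) : Prop :=
  ∃ h : f.2 v = f.2 w, ∀ c, τ.2 (Sum.inr ⟨v, c⟩) (Sum.inr ⟨w, Fin.cast (congrArg d h) c⟩)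

/-- when two vertices are related, from the atomic type of the tuples -/
def adv (A : ∀ j k, Ty s (α ⊕ (Fin (d j) ⊕ Fin (d k))) → Prop)
    (f : (m : ℕ) × (Fin m → Fin t)) (τ : Ty s (α ⊕ (Σ v : Fin f.1, Fin (d (f.2 v)))))
    (v w : Fin f.1) : Prop :=
  A (f.2 v) (f.2 w) (cm (Sum.map id (Sum.elim (fun c => ⟨v, c⟩) (fun c => ⟨w, c⟩))) τ)

/-- the property of the atomic type of the tuples that the tuples are vertices with the pattern -/
def good (D : ∀ j, Ty s (α ⊕ Fin (d j)) → Prop)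
    (A : ∀ j k, Ty s (α ⊕ (Fin (d j) ⊕ Fin (d k))) → Prop)
    (f : (m : ℕ) × (Fin m → Fin t)) (Φ : Pt f.1)
    (τ : Ty s (α ⊕ (Σ v : Fin f.1, Fin (d (f.2 v))))) : Prop :=
  (∀ v, D (f.2 v) (cm (Sum.map id (fun c => ⟨v, c⟩)) τ)) ∧
    Φ (fun v w => ¬ eqv f τ v w ∧ (adv A f τ v w ∨ adv A f τ w v)) (eqv f τ)

theorem pat_iff (D : ∀ j, Ty s (α ⊕ Fin (d j)) → Prop)
    (A : ∀ j k, Ty s (α ⊕ (Fin (d j) ⊕ Fin (d k))) → Prop) {m : ℕ} (Φ : Pt m)
    {n : Fin s → ℕ} (q : α → U n) (f : Fin m → Fin t)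
    (r : (Σ v : Fin m, Fin (d (f v))) → U n) (h : ∀ v, D (f v) (ty (jn q fun c => r ⟨v, c⟩))) :
    Φ (fun a b => (Gr (fun j r => D j (ty (jn q r)))
        (fun j k r r' => A j k (ty (jn q (jn r r'))))).Adj
        (⟨⟨f a, fun c => r ⟨a, c⟩⟩, h a⟩) (⟨⟨f b, fun c => r ⟨b, c⟩⟩, h b⟩))
      (fun a b => (⟨⟨f a, fun c => r ⟨a, c⟩⟩, h a⟩ : Vx (fun j r => D j (ty (jn q r)))) =
        ⟨⟨f b, fun c => r ⟨b, c⟩⟩, h b⟩) ↔
    Φ (fun v w => ¬ eqv ⟨m, f⟩ (ty (jn q r)) v w ∧
      (adv A ⟨m, f⟩ (ty (jn q r)) v w ∨ adv A ⟨m, f⟩ (ty (jn q r)) w v))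
      (eqv ⟨m, f⟩ (ty (jn q r))) := by
  have h1 : ∀ a b, ((⟨⟨f a, fun c => r ⟨a, c⟩⟩, h a⟩ : Vx (fun j r => D j (ty (jn q r)))) =
        ⟨⟨f b, fun c => r ⟨b, c⟩⟩, h b⟩) = eqv (d := d) ⟨m, f⟩ (ty (jn q r)) a b := by
    intro a b
    rw [Subtype.mk_eq_mk, sig_eq]
    rfl
  have h2 : ∀ a b, A (f a) (f b) (ty (jn q (jn (fun c => r ⟨a, c⟩) (fun c => r ⟨b, c⟩)))) =
      adv (d := d) A ⟨m, f⟩ (ty (jn q r)) a b := by
    intro a b
    unfold adv
    rw [← ty_comp]
    congr 2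
    funext x
    rcases x with a | (a | a) <;> rfl
  have h3 : (fun a b => (Gr (fun j r => D j (ty (jn q r)))
        (fun j k r r' => A j k (ty (jn q (jn r r'))))).Adj
        (⟨⟨f a, fun c => r ⟨a, c⟩⟩, h a⟩) (⟨⟨f b, fun c => r ⟨b, c⟩⟩, h b⟩)) =
      (fun v w => ¬ eqv (d := d) ⟨m, f⟩ (ty (jn q r)) v w ∧
      (adv (d := d) A ⟨m, f⟩ (ty (jn q r)) v w ∨ adv (d := d) A ⟨m, f⟩ (ty (jn q r)) w v)) := by
    funext a b
    unfold Gr
    rw [SimpleGraph.fromRel_adj]
    simp only [ne_eq]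
    rw [h1 a b, h2 a b, h2 b a]
  have h4 : (fun a b => (⟨⟨f a, fun c => r ⟨a, c⟩⟩, h a⟩ : Vx (fun j r => D j (ty (jn q r)))) =
        ⟨⟨f b, fun c => r ⟨b, c⟩⟩, h b⟩) = eqv (d := d) ⟨m, f⟩ (ty (jn q r)) := by
    funext a b
    exact h1 a b
  rw [h3, h4]

open Classical in
/-- numbers of patterns are polynomials -/
theorem cnt_poly [Finite α] (D : ∀ j, Ty s (α ⊕ Fin (d j)) → Prop)
    (A : ∀ j k, Ty s (α ⊕ (Fin (d j) ⊕ Fin (d k))) → Prop) {m : ℕ} (Φ : Pt m) :
    ∃ P : Ty s α → Po s, ∀ (n : Fin s → ℕ) (q : α → U n),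
      (cnt Φ (Gr (fun j r => D j (ty (jn q r)))
        (fun j k r r' => A j k (ty (jn q (jn r r'))))) : ℤ) = ev n (P (ty q)) := by
  have h1 : ∀ f : Fin m → Fin t, ∃ P : Ty s α → Po s, ∀ (n : Fin s → ℕ) (q : α → U n),
      ∑ r : (Σ v : Fin m, Fin (d (f v))) → U n,
        ev n (if good D A ⟨m, f⟩ Φ (ty (jn q r)) then 1 else 0) = ev n (P (ty q)) := by
    intro f
    obtain ⟨P, hP⟩ := many (s := s) (α := α) (Σ v : Fin m, Fin (d (f v)))
      (fun τ => if good D A ⟨m, f⟩ Φ τ then 1 else 0)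
    refine ⟨P, fun n q => ?_⟩
    rw [← hP n q]
    refine Finset.sum_congr ?_ fun _ _ => rfl
    ext x
    simp
  choose P hP using h1
  refine ⟨fun τ => ∑ f, P f τ, fun n q => ?_⟩
  rw [map_sum]
  have h2 : cnt Φ (Gr (fun j r => D j (ty (jn q r)))
        (fun j k r r' => A j k (ty (jn q (jn r r'))))) =
      Nat.card (Σ f : Fin m → Fin t, {r : (Σ v : Fin m, Fin (d (f v))) → U n //
        good D A ⟨m, f⟩ Φ (ty (jn q r))}) := by
    unfold cnt
    refine Nat.card_congr ⟨fun x => ⟨fun v => (x.1 v).1.1, ⟨fun c => (x.1 c.1).1.2 c.2, ?_⟩⟩,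
      fun y => ⟨fun v => ⟨⟨y.1 v, fun c => y.2.1 ⟨v, c⟩⟩, ?_⟩, ?_⟩, ?_, ?_⟩
    · refine ⟨fun v => ?_, ?_⟩
      · have := (x.1 v).2
        rw [← ty_comp]
        convert this using 2
        funext z
        rcases z with a | b <;> rfl
      · have := x.2
        exact (pat_iff D A Φ q (fun v => (x.1 v).1.1) (fun c => (x.1 c.1).1.2 c.2)
          (fun v => (x.1 v).2)).1 this
    · have := y.2.2.1 v
      rw [← ty_comp] at this
      convert this using 2
      funext z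
      rcases z with a | b <;> rfl
    · exact (pat_iff D A Φ q y.1 y.2.1 _).2 y.2.2.2
    · intro x
      rfl
    · intro y
      rfl
  rw [h2, Nat.card_sigma, Nat.cast_sum]
  refine Finset.sum_congr rfl fun f _ => ?_
  rw [← hP f n q, Nat.card_eq_fintype_card, Fintype.card_subtype, Finset.card_eq_sum_ones,
    Nat.cast_sum, Finset.sum_filter]
  refine Finset.sum_congr rfl fun r _ => ?_
  split_ifs <;> simp

end count

/-- a family of polynomials has the same zeros as a finite subfamily -/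
theorem noeth {s : ℕ} {ι : Type} (f : ι → Po s) : ∃ T : Finset ι, ∀ n : Fin s → ℕ,
    (∀ i ∈ T, ev n (f i) = 0) → ∀ i, ev n (f i) = 0 := by
  classical
  obtain ⟨I, ⟨T, rfl⟩, hmax⟩ := WellFounded.has_min (wellFounded_gt (α := Ideal (Po s)))
    {I | ∃ T : Finset ι, I = Ideal.span (f '' T)} ⟨_, ∅, rfl⟩
  refine ⟨T, fun n hn i => ?_⟩
  have h1 : f i ∈ Ideal.span (f '' (T : Set ι)) := by
    have h2 := hmax (Ideal.span (f '' ((insert i T : Finset ι) : Set ι))) ⟨_, rfl⟩
    have h3 : Ideal.span (f '' (T : Set ι)) ≤ Ideal.span (f '' ((insert i T : Finset ι) : Set ι)) := by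
      apply Ideal.span_mono
      apply Set.image_mono
      intro x hx
      rw [Finset.coe_insert]
      exact Set.mem_insert_of_mem _ hx
    have h4 : Ideal.span (f '' (T : Set ι)) = Ideal.span (f '' ((insert i T : Finset ι) : Set ι)) := by
      rcases h3.lt_or_eq with h | h
      · exact absurd h h2
      · exact h
    rw [h4]
    apply Ideal.subset_span
    exact ⟨i, by simp, rfl⟩
  have h5 : Ideal.span (f '' (T : Set ι)) ≤ RingHom.ker (ev n) := by
    rw [Ideal.span_le]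
    rintro _ ⟨j, hj, rfl⟩
    exact hn j hj
  exact h5 h1

/-- equality of the numbers of all patterns of a family is a polynomial equation -/
theorem eq_poly {s : ℕ} {α : Type} [Finite α] {t t' : ℕ} {d : Fin t → ℕ} {d' : Fin t' → ℕ}
    (D : ∀ j, Ty s (α ⊕ Fin (d j)) → Prop)
    (A : ∀ j k, Ty s (α ⊕ (Fin (d j) ⊕ Fin (d k))) → Prop)
    (D' : ∀ j, Ty s (α ⊕ Fin (d' j)) → Prop)
    (A' : ∀ j k, Ty s (α ⊕ (Fin (d' j) ⊕ Fin (d' k))) → Prop)
    {ι : Type} (m : ι → ℕ) (Φ : ∀ i, Pt (m i)) :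
    ∃ R : Ty s α → Po s, ∀ (n : Fin s → ℕ) (q : α → U n),
      (∀ i, cnt (Φ i) (Gr (fun j r => D j (ty (jn q r)))
        (fun j k r r' => A j k (ty (jn q (jn r r'))))) =
        cnt (Φ i) (Gr (fun j r => D' j (ty (jn q r)))
        (fun j k r r' => A' j k (ty (jn q (jn r r')))))) ↔ ev n (R (ty q)) = 0 := by
  have h1 := fun i => cnt_poly D A (Φ i)
  have h2 := fun i => cnt_poly D' A' (Φ i)
  choose P hP using h1
  choose Q hQ using h2
  have h3 : ∀ τ : Ty s α, ∃ T : Finset ι, ∀ n : Fin s → ℕ,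
      (∀ i ∈ T, ev n (P i τ - Q i τ) = 0) → ∀ i, ev n (P i τ - Q i τ) = 0 := fun τ =>
    noeth (fun i => P i τ - Q i τ)
  choose T hT using h3
  refine ⟨fun τ => ∑ i ∈ T τ, (P i τ - Q i τ) ^ 2, fun n q => ?_⟩
  rw [map_sum]
  simp only [map_pow]
  rw [Finset.sum_eq_zero_iff_of_nonneg (fun i _ => sq_nonneg _)]
  constructor
  · intro h i _
    rw [map_sub, ← hP, ← hQ, h i]
    simp
  · intro h i
    have := hT (ty q) n (fun i hi => by
      have := h i hi
      exact pow_eq_zero_iff (two_ne_zero) |>.1 this) i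
    rw [map_sub, ← hP, ← hQ] at this
    omega

end Pool.Agent.K4H91.GIQ
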