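import Pool.Agent.K4H91.GIQ.Graphs

/-!
# First-order logic with graph isomorphism quantifiers on coloured sets
-/

set_option autoImplicit false

namespace Pool.Agent.K4H91.GIQ

open Finset

/-- Formulas with free variables in `α` about sets with `s` colours: first-order logic with
equality and with the quantifiers `iso` and `hom`. These compare two graphs whose vertices are the
tuples of length `d j` (`d' j`) that satisfy `dom j` (`dom' j`), for `j < t` (`j < t'`), and whose
adjacency is defined by `adj` (`adj'`). -/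
inductive Fml (s : ℕ) : Type → Type 1
  | tru {α : Type} : Fml s α
  | col {α : Type} (i : Fin s) (a : α) : Fml s α
  | eq {α : Type} (a b : α) : Fml s α
  | not {α : Type} (φ : Fml s α) : Fml s α
  | and {α : Type} (φ χ : Fml s α) : Fml s α
  | ex {α : Type} (φ : Fml s (Option α)) : Fml s α
  | iso {α : Type} (t : ℕ) (d : Fin t → ℕ) (dom : ∀ j, Fml s (α ⊕ Fin (d j)))
      (adj : ∀ j k, Fml s (α ⊕ (Fin (d j) ⊕ Fin (d k))))
      (t' : ℕ) (d' : Fin t' → ℕ) (dom' : ∀ j, Fml s (α ⊕ Fin (d' j)))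
      (adj' : ∀ j k, Fml s (α ⊕ (Fin (d' j) ⊕ Fin (d' k)))) : Fml s α
  | hom {α : Type} (F : Set (Σ m : ℕ, SimpleGraph (Fin m)))
      (t : ℕ) (d : Fin t → ℕ) (dom : ∀ j, Fml s (α ⊕ Fin (d j)))
      (adj : ∀ j k, Fml s (α ⊕ (Fin (d j) ⊕ Fin (d k))))
      (t' : ℕ) (d' : Fin t' → ℕ) (dom' : ∀ j, Fml s (α ⊕ Fin (d' j)))
      (adj' : ∀ j k, Fml s (α ⊕ (Fin (d' j) ⊕ Fin (d' k)))) : Fml s α

/-- `φ.Holds n q`: the formula `φ` is true for the tuple `q` of the set with `n i` elements of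
colour `i` for each `i` -/
def Fml.Holds {s : ℕ} (n : Fin s → ℕ) : {α : Type} → Fml s α → (α → U n) → Prop
  | _, .tru, _ => True
  | _, .col i a, q => (q a).1 = i
  | _, .eq a b, q => q a = q b
  | _, .not φ, q => ¬ φ.Holds n q
  | _, .and φ χ, q => φ.Holds n q ∧ χ.Holds n q
  | _, .ex φ, q => ∃ u : U n, φ.Holds n (cn u q)
  | _, .iso _ _ dom adj _ _ dom' adj', q => Nonempty
      (Gr (fun j r => (dom j).Holds n (jn q r))
        (fun j k r r' => (adj j k).Holds n (jn q (jn r r'))) ≃g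
      Gr (fun j r => (dom' j).Holds n (jn q r))
        (fun j k r r' => (adj' j k).Holds n (jn q (jn r r'))))
  | _, .hom F _ _ dom adj _ _ dom' adj', q => ∀ K ∈ F,
      Nat.card (K.2 →g Gr (fun j r => (dom j).Holds n (jn q r))
        (fun j k r r' => (adj j k).Holds n (jn q (jn r r')))) =
      Nat.card (K.2 →g Gr (fun j r => (dom' j).Holds n (jn q r))
        (fun j k r r' => (adj' j k).Holds n (jn q (jn r r'))))

/-- Boolean combinations of zero sets of integer polynomials (constructible sets) -/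
inductive AlgComb (s : ℕ) : Set (Fin s → ℕ) → Prop
  | zero (R : Po s) : AlgComb s {n | MvPolynomial.eval (fun i => (n i : ℤ)) R = 0}
  | compl {X : Set (Fin s → ℕ)} (hX : AlgComb s X) : AlgComb s Xᶜ
  | inter {X Y : Set (Fin s → ℕ)} (hX : AlgComb s X) (hY : AlgComb s Y) : AlgComb s (X ∩ Y)

section AC

variable {s : ℕ}

/-- the same for properties -/
def AC (p : (Fin s → ℕ) → Prop) : Prop := AlgComb s {n | p n}

theorem AC.ev (R : Po s) : AC (fun n => GIQ.ev n R = 0) := AlgComb.zero R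

theorem AC.tru : AC (fun _ : Fin s → ℕ => True) := by
  have h := AC.ev (0 : Po s)
  simpa using h

theorem AC.not {p : (Fin s → ℕ) → Prop} (h : AC p) : AC (fun n => ¬ p n) := AlgComb.compl h

theorem AC.and {p q : (Fin s → ℕ) → Prop} (h : AC p) (h' : AC q) : AC (fun n => p n ∧ q n) :=
  AlgComb.inter h h'

theorem AC.or {p q : (Fin s → ℕ) → Prop} (h : AC p) (h' : AC q) : AC (fun n => p n ∨ q n) := by
  have := (h.not.and h'.not).not
  refine cast ?_ this
  congr 1
  funext n
  rw [eq_iff_iff]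
  tauto

theorem AC.iff {p q : (Fin s → ℕ) → Prop} (h : AC p) (h' : AC q) : AC (fun n => p n ↔ q n) := by
  have := (h.and h').or (h.not.and h'.not)
  refine cast ?_ this
  congr 1
  funext n
  rw [eq_iff_iff]
  tauto

theorem AC.const (p : Prop) : AC (fun _ : Fin s → ℕ => p) := by
  by_cases h : p
  · refine cast ?_ (AC.tru (s := s))
    congr 1
    funext n
    rw [eq_iff_iff]
    tauto
  · refine cast ?_ (AC.tru (s := s)).not
    congr 1
    funext n
    rw [eq_iff_iff]
    tauto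

theorem AC.all {ι : Type} [Finite ι] {p : ι → (Fin s → ℕ) → Prop} (h : ∀ i, AC (p i)) :
    AC (fun n => ∀ i, p i n) := by
  classical
  have := Fintype.ofFinite ι
  have h1 : ∀ T : Finset ι, AC (fun n => ∀ i ∈ T, p i n) := by
    intro T
    induction T using Finset.induction_on with
    | empty =>
      refine cast ?_ (AC.tru (s := s))
      congr 1
      funext n
      simp
    | insert a T _ ih =>
      refine cast ?_ ((h a).and ih)
      congr 1
      funext n
      simp
  refine cast ?_ (h1 univ)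
  congr 1
  funext n
  simp

theorem AC.any {ι : Type} [Finite ι] {p : ι → (Fin s → ℕ) → Prop} (h : ∀ i, AC (p i)) :
    AC (fun n => ∃ i, p i n) := by
  refine cast ?_ (AC.all fun i => (h i).not).not
  congr 1
  funext n
  simp

end AC

/-- large cardinalities -/
def Big {s : ℕ} (N : ℕ) (n : Fin s → ℕ) : Prop := ∀ i, N ≤ n i

theorem Big.mono {s : ℕ} {M N : ℕ} {n : Fin s → ℕ} (h : Big N n) (hMN : M ≤ N) : Big M n :=
  fun i => hMN.trans (h i)

/-- for large cardinalities the relation depends on the atomic type and on constructible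
conditions -/
def Tame {s : ℕ} {α : Type} (R : ∀ n : Fin s → ℕ, (α → U n) → Prop) : Prop :=
  ∃ (N : ℕ) (C : Ty s α → (Fin s → ℕ) → Prop), (∀ τ, AC (C τ)) ∧
    ∀ n, Big N n → ∀ q, R n q ↔ C (ty q) n

/-- for large cardinalities the relation depends on the atomic type only -/
def Tame0 {s : ℕ} {α : Type} (N : ℕ) (R : ∀ n : Fin s → ℕ, (α → U n) → Prop) : Prop :=
  ∃ (C : Ty s α → Prop), ∀ n, Big N n → ∀ q, R n q ↔ C (ty q)

theorem exists_new {s : ℕ} {α : Type} [Fintype α] {n : Fin s → ℕ}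
    (h : Big (Fintype.card α + 1) n) (q : α → U n) (i : Fin s) :
    ∃ u : U n, u.1 = i ∧ ∀ b, u ≠ q b := by
  classical
  by_contra hcon
  push Not at hcon
  have h1 : (univ : Finset (Fin (n i))).map ⟨Sigma.mk i, sigma_mk_injective⟩ ⊆
      (univ : Finset α).image q := by
    intro u hu
    simp only [mem_map, mem_univ, true_and, Function.Embedding.coeFn_mk] at hu
    obtain ⟨x, rfl⟩ := hu
    obtain ⟨b, hb⟩ := hcon ⟨i, x⟩ rfl
    rw [hb]
    exact mem_image_of_mem q (mem_univ b)
  have h2 := Finset.card_le_card h1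
  rw [card_map, card_univ, Fintype.card_fin] at h2
  have h3 : ((univ : Finset α).image q).card ≤ Fintype.card α := Finset.card_image_le
  have := h i
  omega

theorem ex_iff {s : ℕ} {α : Type} [Fintype α] {n : Fin s → ℕ}
    (h : Big (Fintype.card α + 1) n) (q : α → U n) (C : Ty s (Option α) → Prop) :
    (∃ u : U n, C (ty (cn u q))) ↔ (∃ i, C (xt (ty q) i (fun _ => False))) ∨
      ∃ b, C (xt (ty q) ((ty q).1 b) ((ty q).2 b)) := by
  constructor
  · rintro ⟨u, hu⟩
    rw [ty_cn] at hu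
    by_cases hb : ∃ b, u = q b
    · obtain ⟨b, rfl⟩ := hb
      exact Or.inr ⟨b, hu⟩
    · left
      refine ⟨u.1, ?_⟩
      convert hu using 2
      funext b
      rw [eq_iff_iff]
      constructor
      · exact False.elim
      · exact fun h => hb ⟨b, h⟩
  · rintro (⟨i, hi⟩ | ⟨b, hb⟩)
    · obtain ⟨u, rfl, hu⟩ := exists_new h q i
      refine ⟨u, ?_⟩
      rw [ty_cn]
      convert hi using 2
      funext b
      rw [eq_iff_iff]
      constructor
      · exact fun h => hu b h
      · exact False.elim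
    · refine ⟨q b, ?_⟩
      rw [ty_cn]
      exact hb

/-- `Big` for finitely many bounds -/
theorem exists_bound {ι : Type} [Finite ι] (N : ι → ℕ) : ∃ M, ∀ i, N i ≤ M := by
  have := Fintype.ofFinite ι
  exact ⟨∑ i, N i, fun i => Finset.single_le_sum (f := N) (fun _ _ => Nat.zero_le _) (mem_univ i)⟩

/-- quantifier-free definitions of two graphs -/
abbrev Prf (s : ℕ) (α : Type) {t t' : ℕ} (d : Fin t → ℕ) (d' : Fin t' → ℕ) : Type :=
  ((∀ j, Ty s (α ⊕ Fin (d j)) → Prop) ×
    (∀ j k, Ty s (α ⊕ (Fin (d j) ⊕ Fin (d k))) → Prop)) ×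
    ((∀ j, Ty s (α ⊕ Fin (d' j)) → Prop) ×
    (∀ j k, Ty s (α ⊕ (Fin (d' j) ⊕ Fin (d' k))) → Prop))

theorem finite_ty (s : ℕ) (α : Type) [Finite α] : Finite (Ty s α) := inferInstance

theorem finite_prf (s : ℕ) (α : Type) [Finite α] {t t' : ℕ} (d : Fin t → ℕ) (d' : Fin t' → ℕ) :
    Finite (Prf s α d d') := by
  have h1 : ∀ (β : Type) [Finite β], Finite (Ty s β → Prop) := by
    intro β _
    have := finite_ty s β
    infer_instance
  have i1 : Finite (∀ j, Ty s (α ⊕ Fin (d j)) → Prop) :=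
    @Pi.finite _ _ _ fun j => h1 _
  have i2 : Finite (∀ j k, Ty s (α ⊕ (Fin (d j) ⊕ Fin (d k))) → Prop) :=
    @Pi.finite _ _ _ fun j => @Pi.finite _ _ _ fun k => h1 _
  have i3 : Finite (∀ j, Ty s (α ⊕ Fin (d' j)) → Prop) :=
    @Pi.finite _ _ _ fun j => h1 _
  have i4 : Finite (∀ j k, Ty s (α ⊕ (Fin (d' j) ⊕ Fin (d' k))) → Prop) :=
    @Pi.finite _ _ _ fun j => @Pi.finite _ _ _ fun k => h1 _
  infer_instance

/-- comparison of two graphs by numbers of patterns -/
theorem tame_quant {s : ℕ} {α : Type} [Finite α] {t t' : ℕ} {d : Fin t → ℕ} {d' : Fin t' → ℕ}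
    (D : ∀ j, ∀ n : Fin s → ℕ, (α ⊕ Fin (d j) → U n) → Prop)
    (A : ∀ j k, ∀ n : Fin s → ℕ, (α ⊕ (Fin (d j) ⊕ Fin (d k)) → U n) → Prop)
    (D' : ∀ j, ∀ n : Fin s → ℕ, (α ⊕ Fin (d' j) → U n) → Prop)
    (A' : ∀ j k, ∀ n : Fin s → ℕ, (α ⊕ (Fin (d' j) ⊕ Fin (d' k)) → U n) → Prop)
    (hD : ∀ j, Tame (D j)) (hA : ∀ j k, Tame (A j k))
    (hD' : ∀ j, Tame (D' j)) (hA' : ∀ j k, Tame (A' j k))
    {ι : Type} (m : ι → ℕ) (Φ : ∀ i, Pt (m i)) :
    Tame (α := α) (fun n q => ∀ i,
      cnt (Φ i) (Gr (fun j r => D j n (jn q r)) (fun j k r r' => A j k n (jn q (jn r r')))) =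
      cnt (Φ i) (Gr (fun j r => D' j n (jn q r))
        (fun j k r r' => A' j k n (jn q (jn r r'))))) := by
  choose N1 C1 hC1 h1 using hD
  choose N2 C2 hC2 h2 using hA
  choose N3 C3 hC3 h3 using hD'
  choose N4 C4 hC4 h4 using hA'
  obtain ⟨M1, hM1⟩ := exists_bound N1
  obtain ⟨M2, hM2⟩ := exists_bound (fun x : Fin t × Fin t => N2 x.1 x.2)
  obtain ⟨M3, hM3⟩ := exists_bound N3
  obtain ⟨M4, hM4⟩ := exists_bound (fun x : Fin t' × Fin t' => N4 x.1 x.2)
  have hR := fun p : Prf s α d d' => eq_poly p.1.1 p.1.2 p.2.1 p.2.2 m Φ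
  choose R hR using hR
  refine ⟨M1 + M2 + M3 + M4, fun τ n => ∃ p : Prf s α d d', ((∀ j, ∀ σ, (C1 j σ n ↔ p.1.1 j σ)) ∧
    (∀ j k, ∀ σ, (C2 j k σ n ↔ p.1.2 j k σ)) ∧ (∀ j, ∀ σ, (C3 j σ n ↔ p.2.1 j σ)) ∧
    (∀ j k, ∀ σ, (C4 j k σ n ↔ p.2.2 j k σ))) ∧ ev n (R p τ) = 0, ?_, ?_⟩
  · intro τ
    have := finite_prf s α d d'
    refine AC.any fun p => AC.and (AC.and ?_ (AC.and ?_ (AC.and ?_ ?_))) (AC.ev _)
    · exact AC.all fun j => AC.all fun σ => (hC1 j σ).iff (AC.const _)
    · exact AC.all fun j => AC.all fun k => AC.all fun σ => (hC2 j k σ).iff (AC.const _)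
    · exact AC.all fun j => AC.all fun σ => (hC3 j σ).iff (AC.const _)
    · exact AC.all fun j => AC.all fun k => AC.all fun σ => (hC4 j k σ).iff (AC.const _)
  · intro n hn q
    have e1 : (fun j r => D j n (jn q r)) = (fun j r => (C1 j (ty (jn q r)) n)) := by
      funext j r
      rw [eq_iff_iff]
      exact h1 j n (hn.mono (by have := hM1 j; omega)) _
    have e2 : (fun j k r r' => A j k n (jn q (jn r r'))) =
        (fun j k r r' => (C2 j k (ty (jn q (jn r r'))) n)) := by
      funext j k r r'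
      rw [eq_iff_iff]
      exact h2 j k n (hn.mono (by have := hM2 (j, k); dsimp only at this; omega)) _
    have e3 : (fun j r => D' j n (jn q r)) = (fun j r => (C3 j (ty (jn q r)) n)) := by
      funext j r
      rw [eq_iff_iff]
      exact h3 j n (hn.mono (by have := hM3 j; omega)) _
    have e4 : (fun j k r r' => A' j k n (jn q (jn r r'))) =
        (fun j k r r' => (C4 j k (ty (jn q (jn r r'))) n)) := by
      funext j k r r'
      rw [eq_iff_iff]
      exact h4 j k n (hn.mono (by have := hM4 (j, k); dsimp only at this; omega)) _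
    beta_reduce
    rw [e1, e2, e3, e4]
    let p0 : Prf s α d d' := ((fun j σ => C1 j σ n, fun j k σ => C2 j k σ n),
      (fun j σ => C3 j σ n, fun j k σ => C4 j k σ n))
    rw [hR p0 n q]
    constructor
    · intro h
      exact ⟨p0, ⟨fun _ _ => Iff.rfl, fun _ _ _ => Iff.rfl, fun _ _ => Iff.rfl,
        fun _ _ _ => Iff.rfl⟩, h⟩
    · rintro ⟨p, ⟨g1, g2, g3, g4⟩, h⟩
      have : p = p0 := by
        refine Prod.ext (Prod.ext ?_ ?_) (Prod.ext ?_ ?_)
        · funext j σ
          exact (propext (g1 j σ)).symm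
        · funext j k σ
          exact (propext (g2 j k σ)).symm
        · funext j σ
          exact (propext (g3 j σ)).symm
        · funext j k σ
          exact (propext (g4 j k σ)).symm
      rw [← this]
      exact h

/-- every formula is tame -/
theorem tame {s : ℕ} {α : Type} (φ : Fml s α) : Finite α → Tame (fun n q => φ.Holds n q) := by
  induction φ with
  | tru =>
    intro _
    exact ⟨0, fun _ _ => True, fun _ => AC.tru, fun n _ q => Iff.rfl⟩
  | col i a =>
    intro _
    exact ⟨0, fun τ _ => τ.1 a = i, fun _ => AC.const _, fun n _ q => Iff.rfl⟩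
  | eq a b =>
    intro _
    exact ⟨0, fun τ _ => τ.2 a b, fun _ => AC.const _, fun n _ q => Iff.rfl⟩
  | not φ ih =>
    intro hα
    obtain ⟨N, C, hC, h⟩ := ih hα
    exact ⟨N, fun τ n => ¬ C τ n, fun τ => (hC τ).not, fun n hn q => not_congr (h n hn q)⟩
  | and φ χ ih1 ih2 =>
    intro hα
    obtain ⟨N, C, hC, h⟩ := ih1 hα
    obtain ⟨N', C', hC', h'⟩ := ih2 hα
    exact ⟨N + N', fun τ n => C τ n ∧ C' τ n, fun τ => (hC τ).and (hC' τ), fun n hn q =>
      and_congr (h n (hn.mono (by omega)) q) (h' n (hn.mono (by omega)) q)⟩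
  | @ex α φ ih =>
    intro hα
    have := Fintype.ofFinite α
    obtain ⟨N, C, hC, h⟩ := ih inferInstance
    refine ⟨N + (Fintype.card α + 1), fun τ n => (∃ i, C (xt τ i (fun _ => False)) n) ∨
      ∃ b, C (xt τ (τ.1 b) (τ.2 b)) n, fun τ => ?_, fun n hn q => ?_⟩
    · exact (AC.any fun i => hC _).or (AC.any fun b => hC _)
    · beta_reduce
      rw [← ex_iff (hn.mono (by omega)) q (fun τ => C τ n)]
      exact exists_congr fun u => h n (hn.mono (by omega)) _
  | iso t d dom adj t' d' dom' adj' ih1 ih2 ih3 ih4 =>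
    intro hα
    obtain ⟨N, C, hC, h⟩ := tame_quant (fun j n q => (dom j).Holds n q)
      (fun j k n q => (adj j k).Holds n q) (fun j n q => (dom' j).Holds n q)
      (fun j k n q => (adj' j k).Holds n q) (fun j => ih1 j inferInstance)
      (fun j k => ih2 j k inferInstance) (fun j => ih3 j inferInstance)
      (fun j k => ih4 j k inferInstance)
      (ι := Σ m : ℕ, SimpleGraph (Fin m)) (fun F => F.1) (fun F => indPt F.2)
    refine ⟨N, C, hC, fun n hn q => ?_⟩
    rw [← h n hn q]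
    show Nonempty _ ↔ _
    rw [iso_iff]
    exact ⟨fun h F => h F.1 F.2, fun h m F => h ⟨m, F⟩⟩
  | hom F t d dom adj t' d' dom' adj' ih1 ih2 ih3 ih4 =>
    intro hα
    obtain ⟨N, C, hC, h⟩ := tame_quant (fun j n q => (dom j).Holds n q)
      (fun j k n q => (adj j k).Holds n q) (fun j n q => (dom' j).Holds n q)
      (fun j k n q => (adj' j k).Holds n q) (fun j => ih1 j inferInstance)
      (fun j k => ih2 j k inferInstance) (fun j => ih3 j inferInstance)
      (fun j k => ih4 j k inferInstance)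
      (ι := F) (fun K => K.1.1) (fun K => homPt K.1.2)
    refine ⟨N, C, hC, fun n hn q => ?_⟩
    rw [← h n hn q]
    show (∀ K ∈ F, _) ↔ _
    constructor
    · rintro g ⟨K, hK⟩
      rw [cnt_hom, cnt_hom]
      exact g K hK
    · intro g K hK
      have := g ⟨K, hK⟩
      rw [cnt_hom, cnt_hom] at this
      exact this

end Pool.Agent.K4H91.GIQ
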